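import Pool.Agent.Q81.HR.Spec

/-!
# Riesz products in `M_0(𝕋)` have natural spectrum as multipliers of `H¹(𝕋)`

Question Q1 asks for a Riesz product `μ ∈ M_0(𝕋)` such that the convolution operator `T_μ` on
`H¹(𝕋)` has non-natural spectrum. We prove that there is none: for every Riesz product `μ` in
`M_0(𝕋)`, the spectrum of `T_μ` on `H¹(𝕋)` is the closure of `{μ̂(n) : n ≥ 0}`.

Sketch of the proof. Put `c_k = a_k / 2` and let `P_k` be the partial products. On `H¹` the
operator `T_μ^j` restricted to high frequencies is `∑_k c_k^j (e^{i n_k t} P_k^{(j)}) * f`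
(`P_k^{(j)}` the Riesz products with coefficients `c_k^j`), and we show that its norm is at most
`35032 · sup_k |c_k|^j`. For a polynomial `f = g h` with `|g|² = |h|² = |f|` on the circle, `g`, `h`
analytic, and a bounded function `u`, only the products of a low or middle part of `g` and `h`, with
one middle part, matter in `∫ g h b̄_k`, `b_k = (e^{i n_k t} P_k) ∗ u`; and
`∑_k ∫ |low_k h|² |b_k|² ≤ C ‖h‖²` follows, as the low part does not see the difference of `P_k` and
of a fixed Riesz product of larger order, from a Carleson embedding at the scales `1 / n_k`, proved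
with the Bellman function `|h|² / (1 + A|u|² - |A u|²)`, `A` the Poisson averages.
-/

open MeasureTheory AddCircle Filter Topology

namespace Pool.Agent.Results.MP_1d9d5b_an.NaturalSpectrum

instance two_pi_pos : Fact ((0 : ℝ) < 2 * Real.pi) := ⟨Real.two_pi_pos⟩

/-- the circle `𝕋 = ℝ / 2πℤ` -/
abbrev Torus := AddCircle (2 * Real.pi)

/-- the measure `dt / 2π` on `𝕋` (normalized Haar measure) -/
noncomputable def haar : Measure Torus := haarAddCircle

/-- `L¹(𝕋)`, with respect to `dt / 2π` -/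
def LOne : Type := Lp ℂ 1 haar

noncomputable instance instNormedLOne : NormedAddCommGroup LOne :=
  (inferInstance : NormedAddCommGroup (Lp ℂ 1 haar))

noncomputable instance instSpaceLOne : NormedSpace ℂ LOne :=
  (inferInstance : NormedSpace ℂ (Lp ℂ 1 haar))

/-- the Fourier coefficient `f̂(n) = ∫ e^{-int} f(t) dt / 2π` of `f ∈ L¹(𝕋)` -/
noncomputable def hat (f : LOne) (n : ℤ) : ℂ :=
  fourierCoeff (show Lp ℂ 1 haar from f) n

theorem hat_zero (n : ℤ) : hat 0 n = 0 :=
  (Pool.Agent.Q81.HR.phi (T := 2 * Real.pi) n).map_zero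

theorem hat_add (f g : LOne) (n : ℤ) : hat (f + g) n = hat f n + hat g n :=
  (Pool.Agent.Q81.HR.phi (T := 2 * Real.pi) n).map_add f g

theorem hat_smul (c : ℂ) (f : LOne) (n : ℤ) : hat (c • f) n = c * hat f n :=
  (Pool.Agent.Q81.HR.phi (T := 2 * Real.pi) n).map_smul c f

/-- the Hardy space `H¹(𝕋)` as a subspace of `L¹(𝕋)`: `f̂(n) = 0` for all `n < 0` -/
def Hardy : Submodule ℂ LOne where
  carrier := {f | ∀ n : ℤ, n < 0 → hat f n = 0}
  zero_mem' := fun n _ => hat_zero n
  add_mem' := fun hf hg n hn => by rw [hat_add, hf n hn, hg n hn, add_zero]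
  smul_mem' := fun c f hf n hn => by rw [hat_smul, hf n hn, mul_zero]

/-- the Hardy space `H¹(𝕋)` with the norm of `L¹(𝕋)` -/
def HOne : Type := Hardy

noncomputable instance instNormedHOne : NormedAddCommGroup HOne :=
  (inferInstance : NormedAddCommGroup Hardy)

noncomputable instance instSpaceHOne : NormedSpace ℂ HOne :=
  (inferInstance : NormedSpace ℂ Hardy)

/-- the inclusion of `H¹(𝕋)` in `L¹(𝕋)` -/
def HOne.val (f : HOne) : LOne := (show Hardy from f).1

/-- the Fourier-Stieltjes coefficient `μ̂(n) = ∫ e^{-int} dμ(t)` -/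
noncomputable def coefficient (μ : Measure Torus) (n : ℤ) : ℂ := ∫ t, fourier (-n) t ∂μ

/-- `μ` is a Riesz product: the weak star limit of the measures
`∏_{k < N} (1 + Re (a_k e^{i n_k t})) dt / 2π` as `N → ∞`, where the `n_k` are positive integers
with `n_{k+1} ≥ 3 n_k` and `|a_k| ≤ 1` -/
structure IsRieszProduct (μ : Measure Torus) : Prop where
  finite : IsFiniteMeasure μ
  limit : ∃ (n : ℕ → ℕ) (a : ℕ → ℂ), (∀ k, 0 < n k) ∧ (∀ k, 3 * n k ≤ n (k + 1)) ∧
    (∀ k, ‖a k‖ ≤ 1) ∧
    ∀ φ : C(Torus, ℂ), Tendsto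
      (fun N : ℕ => ∫ t, φ t
        * ((∏ k ∈ Finset.range N, (1 + (a k * fourier (n k : ℤ) t).re) : ℝ) : ℂ) ∂haar)
      atTop (𝓝 (∫ t, φ t ∂μ))

/-- `μ ∈ M_0(𝕋)`: the Fourier-Stieltjes coefficients tend to zero as `|n| → ∞` -/
def IsRajchman (μ : Measure Torus) : Prop := Tendsto (coefficient μ) cofinite (𝓝 0)

/-- `A` is the multiplier `T_μ` on `H¹(𝕋)`: `(A f)^(n) = μ̂(n) f̂(n)` for all `n` -/
def IsMultiplier (μ : Measure Torus) (A : HOne →L[ℂ] HOne) : Prop :=
  ∀ (f : HOne) (n : ℤ), hat (A f).val n = coefficient μ n * hat f.val n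

/-- For every Riesz product `μ` in `M_0(𝕋)` there is exactly one bounded operator `A` on `H¹(𝕋)`
with `(A f)^(n) = μ̂(n) f̂(n)` (the multiplier `T_μ`), and its spectrum is the closure of
`{μ̂(n) : n ≥ 0}`. -/
theorem result (μ : Measure Torus) (hμ : IsRieszProduct μ) (h0 : IsRajchman μ) :
    (∃! A : HOne →L[ℂ] HOne, IsMultiplier μ A) ∧
    ∀ A : HOne →L[ℂ] HOne, IsMultiplier μ A →
      spectrum ℂ A = closure (Set.range fun n : ℕ => coefficient μ n) := by
  have := hμ.finite
  obtain ⟨n, a, hn, hnn, ha, hlim⟩ := hμ.limit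
  -- the multiplier
  have hex : IsMultiplier μ (Pool.Agent.Q81.HR.convH (T := 2 * Real.pi) μ) := by
    intro f m
    exact Pool.Agent.Q81.HR.phiH_convH μ f m
  have huniq : ∀ A : HOne →L[ℂ] HOne, IsMultiplier μ A →
      A = Pool.Agent.Q81.HR.convH (T := 2 * Real.pi) μ := by
    intro A hA
    refine ContinuousLinearMap.ext fun f => ?_
    apply Subtype.ext
    refine Pool.Agent.Q81.HR.phi_ext (fun m => ?_)
    exact (hA f m).trans (hex f m).symm
  refine ⟨⟨_, hex, huniq⟩, fun A hA => ?_⟩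
  rw [huniq A hA]
  refine Pool.Agent.Q81.HR.natural (T := 2 * Real.pi) (N := n) (c := fun k => a k / 2) hn hnn
    (fun k => ?_) (fun φ => ?_) h0
  · rw [norm_div, Complex.norm_ofNat]
    have := ha k
    linarith
  · have h := hlim φ
    refine h.congr (fun N => ?_)
    congr 1
    funext t
    congr 2
    unfold Pool.Agent.Q81.HR.P
    refine Finset.prod_congr rfl fun k _ => ?_
    have h2 : a k / 2 * (fourier (n k : ℤ) t : ℂ) = (((1 / 2 : ℝ)) : ℂ) * (a k * fourier (n k : ℤ) t) := by
      push_cast; ring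
    rw [h2, Complex.re_ofReal_mul]
    ring

end Pool.Agent.Results.MP_1d9d5b_an.NaturalSpectrum
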